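import Pool.Agent.Helper61.FN.GoalsC

/-!
Project FN (MP_06d934_gt): packet FN-C5.
-/

set_option autoImplicit false

namespace Pool.Agent.Helper95.FN

open Finset Pool.Agent.Helper61.FN

/-- Packet FN-C5. -/
theorem goalC5 : G_C5 := by
  intro F k _ _ _ _ _ p q mu ep lam v M ξ h h0 h1 h2 h3 h5 h4
  have p1 := h.par.p1
  have q1 := h.par.q1
  have mu0 := h.par.mu0
  have ph0 := h.par.ph0
  have ch0 := h.par.ch0
  have p0 : 0 < p := by linarith
  have q0 : 0 < q := by linarith
  have hM : M < v 4 := by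
    have hs := h.sm
    rw [h0, h1, h2, h3, h5] at hs
    by_contra hc
    have hc' : (v 4 : F) ≤ M := by exact_mod_cast not_lt.1 hc
    have hM0 : (0 : F) < M := by exact_mod_cast h.nrm.M_pos
    have h6 : (0 : F) < 4 * p * q + p * (p + ep) + q * (q + ep) := by positivity
    have h7 : (0 : F) < 2 * p * mu + 2 * q * mu := by positivity
    simp only [Int.cast_zero, mul_zero, zero_add] at hs
    nlinarith [mul_pos hM0 h6, mul_le_mul_of_nonneg_left hc' h7.le]
  refine h.nrm.neg ![0, 0, 0, 0, 1, 1] ?_ fun j hj ↦ ?_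
  · simp [Fin.sum_univ_succ, dC]
    positivity
  · rw [gr6]
    rw [pr6] at hj
    fin_cases j <;> simp [mC] at hj ⊢ <;> omega

end Pool.Agent.Helper95.FN
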